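import Mathlib

set_option autoImplicit false

/-!
# Co-singleton subsets of `ℤ_n` are extreme if `n - 1 ≥ 3` is a prime power

`sidon n E` is the Sidon constant of `E ⊆ ℤ_n` as in the problem, and `Flat n E` says that `E`
carries unimodular coefficients with a flat transform. Both forms of extremality are proved for
all `E` with `n - 1` elements, if `n - 1 = q ≥ 3` is a prime power.

Let `K` be the field with `q ^ 2` elements and `u` a generator of the group of the elements with
`u ^ (q + 1) = 1`. The coefficients are `X (1 + u ^ j)`, where `X` is a multiplicative character of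
`K` which is not trivial on the subfield with `q` elements.
-/

namespace Pool.Agent.Results.MP_462016_an.PrimePowersPlusOne

open Complex Finset ZMod

/-- The transform `∑_{x ∈ E} a_x exp (2 π i x t / n)`. -/
noncomputable def transform (n : ℕ) (E : Finset (ZMod n)) (a : ZMod n → ℂ) (t : ZMod n) : ℂ :=
  ∑ x ∈ E, a x * exp (2 * Real.pi * I * ((x.val * t.val : ℕ) : ℂ) / n)

/-- There are unimodular `c_x` (`x ∈ E`) with `|∑_{x ∈ E} c_x exp (2 π i x t / n)|² = |E|` for
every `t`. -/
def Flat (n : ℕ) (E : Finset (ZMod n)) : Prop :=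
  ∃ c : ZMod n → ℂ, (∀ x ∈ E, ‖c x‖ = 1) ∧ ∀ t : ZMod n, ‖transform n E c t‖ ^ 2 = E.card

/-- The Sidon constant of `E`. -/
noncomputable def sidon (n : ℕ) (E : Finset (ZMod n)) : ℝ :=
  sSup {s : ℝ | ∃ a : ZMod n → ℂ, (∀ t : ZMod n, ‖transform n E a t‖ ≤ 1) ∧ s = ∑ x ∈ E, ‖a x‖}

variable {n : ℕ} [NeZero n]

theorem exp_eq (x t : ZMod n) :
    exp (2 * Real.pi * I * ((x.val * t.val : ℕ) : ℂ) / n) = stdAddChar (t * x) := by
  have h := stdAddChar_coe (N := n) ((x.val * t.val : ℕ) : ℤ)
  have h2 : (((x.val * t.val : ℕ) : ℤ) : ZMod n) = t * x := by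
    push_cast
    rw [ZMod.natCast_zmod_val, ZMod.natCast_zmod_val, mul_comm]
  rw [h2] at h
  rw [h]
  push_cast
  rfl

theorem transform_eq (E : Finset (ZMod n)) (a : ZMod n → ℂ) (t : ZMod n) :
    transform n E a t = ∑ x ∈ E, a x * stdAddChar (t * x) := by
  unfold transform
  exact Finset.sum_congr rfl fun x _ => by rw [exp_eq]

/-- Plancherel. -/
theorem plancherel (E : Finset (ZMod n)) (a : ZMod n → ℂ) :
    ∑ t : ZMod n, ‖transform n E a t‖ ^ 2 = n * ∑ x ∈ E, ‖a x‖ ^ 2 := by
  have key : ∑ t : ZMod n, (transform n E a t) * (starRingEnd ℂ) (transform n E a t) =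
      n * ∑ x ∈ E, a x * (starRingEnd ℂ) (a x) := by
    have h1 : ∀ t : ZMod n, (transform n E a t) * (starRingEnd ℂ) (transform n E a t) =
        ∑ x ∈ E, ∑ y ∈ E, a x * (starRingEnd ℂ) (a y) * stdAddChar (t * (x - y)) := by
      intro t
      rw [transform_eq, map_sum, Finset.sum_mul_sum]
      refine Finset.sum_congr rfl fun x _ => Finset.sum_congr rfl fun y _ => ?_
      rw [map_mul (starRingEnd ℂ), ← AddChar.map_neg_eq_conj, mul_sub, sub_eq_add_neg,
        AddChar.map_add_eq_mul]
      ring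
    simp_rw [h1]
    rw [Finset.sum_comm, Finset.mul_sum]
    refine Finset.sum_congr rfl fun x hx => ?_
    rw [Finset.sum_comm]
    simp_rw [← Finset.mul_sum]
    have h2 : ∀ y ∈ E, a x * (starRingEnd ℂ) (a y) * ∑ t : ZMod n, stdAddChar (t * (x - y)) =
        if y = x then (n : ℂ) * (a x * (starRingEnd ℂ) (a x)) else 0 := by
      intro y _
      rw [AddChar.sum_mulShift (x - y) (isPrimitive_stdAddChar n)]
      by_cases hxy : y = x
      · subst hxy
        simp [ZMod.card, mul_comm]
      · have : x - y ≠ 0 := sub_ne_zero.2 (Ne.symm hxy)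
        simp [this, hxy]
    rw [Finset.sum_congr rfl h2, Finset.sum_ite_eq' E x]
    simp [hx]
  have h3 : ∀ z : ℂ, z * (starRingEnd ℂ) z = ((‖z‖ ^ 2 : ℝ) : ℂ) := by
    intro z
    rw [Complex.mul_conj, Complex.normSq_eq_norm_sq]
  simp_rw [h3] at key
  exact_mod_cast key

/-- A flat set has Sidon constant `√|E|`. -/
theorem Flat.sidon_eq {E : Finset (ZMod n)} (h : Flat n E) : sidon n E = √E.card := by
  have hn : (0 : ℝ) < n := by exact_mod_cast Nat.pos_of_ne_zero (NeZero.ne n)
  rcases E.eq_empty_or_nonempty with rfl | hE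
  · have : {s : ℝ | ∃ a : ZMod n → ℂ, (∀ t : ZMod n, ‖transform n ∅ a t‖ ≤ 1) ∧
        s = ∑ x ∈ (∅ : Finset (ZMod n)), ‖a x‖} = {0} := by
      ext s
      simp only [Finset.sum_empty, Set.mem_ofPred_eq, Set.mem_singleton_iff]
      constructor
      · rintro ⟨a, _, h⟩
        exact h
      · intro h
        exact ⟨0, by simp [transform], h⟩
    unfold sidon
    rw [this]
    simp
  have hN : (0 : ℝ) < E.card := by exact_mod_cast hE.card_pos
  obtain ⟨c, hc, hf⟩ := h
  refine IsGreatest.csSup_eq ⟨?_, ?_⟩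
  · refine ⟨fun x => c x / (√E.card : ℝ), fun t => ?_, ?_⟩
    · have h1 : transform n E (fun x => c x / (√E.card : ℝ)) t =
          transform n E c t / (√E.card : ℝ) := by
        unfold transform
        rw [Finset.sum_div]
        exact Finset.sum_congr rfl fun x _ => by ring
      have h2 : ‖transform n E c t‖ = √E.card := by
        rw [← hf t, Real.sqrt_sq (norm_nonneg _)]
      rw [h1, norm_div, h2, Complex.norm_real, Real.norm_of_nonneg (Real.sqrt_nonneg _),
        div_self (Real.sqrt_pos.2 hN).ne']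
    · have h1 : ∀ x ∈ E, ‖c x / ((√E.card : ℝ) : ℂ)‖ = 1 / √E.card := by
        intro x hx
        rw [norm_div, hc x hx, Complex.norm_real, Real.norm_of_nonneg (Real.sqrt_nonneg _)]
      rw [Finset.sum_congr rfl h1, Finset.sum_const, nsmul_eq_mul, mul_one_div]
      exact (Real.div_sqrt).symm
  · rintro s ⟨a, ha, rfl⟩
    have h1 : (∑ x ∈ E, ‖a x‖) ^ 2 ≤ E.card * ∑ x ∈ E, ‖a x‖ ^ 2 :=
      sq_sum_le_card_mul_sum_sq
    have h2 : ∑ t : ZMod n, ‖transform n E a t‖ ^ 2 ≤ n := by
      calc ∑ t : ZMod n, ‖transform n E a t‖ ^ 2 ≤ ∑ _t : ZMod n, (1 : ℝ) :=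
            Finset.sum_le_sum fun t _ => by
              have := ha t
              have h0 := norm_nonneg (transform n E a t)
              nlinarith
        _ = n := by simp [ZMod.card]
    rw [plancherel] at h2
    have h3 : ∑ x ∈ E, ‖a x‖ ^ 2 ≤ 1 := by
      by_contra hcon
      push Not at hcon
      nlinarith
    refine Real.le_sqrt_of_sq_le (h1.trans ?_)
    nlinarith

section field

variable {K : Type} [Field K] [Fintype K] [DecidableEq K] {q : ℕ}

/-- The data: `v` is an injective character of `ℤ_{q+1}` with values in `K` whose image contains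
`-1`. -/
theorem corr_eq_zero (hq : 3 ≤ q) (X : MulChar K ℂ) {l : K} (hl : l ^ (q - 1) = 1)
    (hX : X l ≠ 1) (v : AddChar (ZMod (q + 1)) K) (hv : Function.Injective v)
    (hcomm : ∀ x y : K, (x + y) ^ q = x ^ q + y ^ q) (j₀ : ZMod (q + 1)) (hj₀ : v j₀ = -1)
    (s : ZMod (q + 1)) (hs : s ≠ 0) :
    ∑ j : ZMod (q + 1), X (1 + v j) * (starRingEnd ℂ) (X (1 + v (j + s))) = 0 := by
  have hpow : ∀ j, v j ^ (q + 1) = 1 := by
    intro j
    rw [← AddChar.map_nsmul_eq_pow]
    have : (q + 1) • j = 0 := by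
      rw [nsmul_eq_mul, ZMod.natCast_self, zero_mul]
    rw [this, AddChar.map_zero_eq_one]
  have hv0 : ∀ j, v j ≠ 0 := fun j h => by
    have := hpow j
    rw [h, zero_pow (by omega)] at this
    exact zero_ne_one this
  set a := v s with ha
  have ha1 : a ≠ 1 := by
    rw [ha, ← v.map_zero_eq_one]
    exact fun h => hs (hv h)
  -- the quotients
  set f : ZMod (q + 1) → K := fun j => (1 + v j) * (1 + v (j + s))⁻¹ with hf
  have hterm : ∀ j, X (1 + v j) * (starRingEnd ℂ) (X (1 + v (j + s))) = X (f j) := by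
    intro j
    have h1 : (starRingEnd ℂ) (X (1 + v (j + s))) = X⁻¹ (1 + v (j + s)) := MulChar.star_apply' _ _
    rw [h1, MulChar.inv_apply', hf, map_mul]
  simp_rw [hterm]
  set J : Finset (ZMod (q + 1)) := univ.filter fun j => f j ≠ 0 with hJ
  set W : Finset K := univ.filter fun w => w ^ (q - 1) = a with hW
  have hsumJ : ∑ j : ZMod (q + 1), X (f j) = ∑ j ∈ J, X (f j) := by
    rw [hJ, Finset.sum_filter]
    refine Finset.sum_congr rfl fun j _ => ?_
    by_cases h : f j = 0
    · simp [h, MulChar.map_zero]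
    · simp [h]
  have hne : ∀ j ∈ J, 1 + v j ≠ 0 ∧ 1 + v (j + s) ≠ 0 := by
    intro j hj
    rw [hJ, Finset.mem_filter] at hj
    exact ⟨fun h => hj.2 (by simp [hf, h]), fun h => hj.2 (by simp [hf, h])⟩
  have hinj : ∀ j ∈ J, ∀ k ∈ J, f j = f k → j = k := by
    intro j hj k hk h
    obtain ⟨h1, h2⟩ := hne j hj
    obtain ⟨h3, h4⟩ := hne k hk
    simp only [hf] at h
    rw [← div_eq_mul_inv, ← div_eq_mul_inv, div_eq_div_iff h2 h4, AddChar.map_add_eq_mul,
      AddChar.map_add_eq_mul, ← ha] at h
    have h5 : (v j - v k) * (1 - a) = 0 := by linear_combination h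
    rcases mul_eq_zero.1 h5 with h6 | h6
    · exact hv (sub_eq_zero.1 h6)
    · exact absurd (sub_eq_zero.1 h6).symm ha1
  have hmaps : ∀ j ∈ J, f j ∈ W := by
    intro j hj
    obtain ⟨h1, h2⟩ := hne j hj
    rw [hW, Finset.mem_filter]
    refine ⟨Finset.mem_univ _, ?_⟩
    have hq1 : ∀ i, (1 + v i) ^ q * v i = 1 + v i := by
      intro i
      rw [hcomm, one_pow, add_mul, one_mul, ← pow_succ, hpow i, add_comm]
    have e1 := hq1 j
    have e2 := hq1 (j + s)
    rw [AddChar.map_add_eq_mul] at e2 h2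
    have h7 : f j ^ q = a * f j := by
      simp only [hf]
      rw [AddChar.map_add_eq_mul, ← ha, mul_pow, inv_pow]
      have h8 : (1 + v j * a) ^ q ≠ 0 := pow_ne_zero _ (by rwa [ha])
      rw [← ha] at e2 h2
      field_simp
      have hvj := hv0 j
      have ha0 : a ≠ 0 := hv0 s
      apply mul_left_cancel₀ hvj
      linear_combination (1 + v j * a) * e1 - (1 + v j) * e2
    have h9 : f j ≠ 0 := by
      rw [hJ, Finset.mem_filter] at hj
      exact hj.2
    have h10 : f j ^ q = f j ^ (q - 1) * f j := by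
      rw [← pow_succ]
      congr 1
      omega
    rw [h10] at h7
    exact mul_right_cancel₀ h9 h7
  have hJcard : q - 1 ≤ J.card := by
    have h1 : ({j₀, j₀ - s} : Finset (ZMod (q + 1)))ᶜ ⊆ J := by
      intro j hj
      rw [Finset.mem_compl, Finset.mem_insert, Finset.mem_singleton, not_or] at hj
      rw [hJ, Finset.mem_filter]
      refine ⟨Finset.mem_univ _, mul_ne_zero ?_ (inv_ne_zero ?_)⟩
      · intro h
        apply hj.1
        apply hv
        rw [hj₀]
        exact (neg_eq_of_add_eq_zero_right h).symm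
      · intro h
        apply hj.2
        have : v (j + s) = v j₀ := by
          rw [hj₀]
          exact (neg_eq_of_add_eq_zero_right h).symm
        rw [← hv this, add_sub_cancel_right]
    have h2 := Finset.card_le_card h1
    rw [Finset.card_compl, ZMod.card] at h2
    have h3 : ({j₀, j₀ - s} : Finset (ZMod (q + 1))).card ≤ 2 := Finset.card_le_two
    omega
  have hWcard : W.card ≤ q - 1 := by
    have h1 : W ⊆ (Polynomial.nthRoots (q - 1) a).toFinset := by
      intro w hw
      rw [hW, Finset.mem_filter] at hw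
      rw [Multiset.mem_toFinset, Polynomial.mem_nthRoots (by omega)]
      exact hw.2
    exact (Finset.card_le_card h1).trans
      ((Multiset.toFinset_card_le _).trans (Polynomial.card_nthRoots _ _))
  have himg : J.image f = W := by
    apply Finset.eq_of_subset_of_card_le
    · intro w hw
      obtain ⟨j, hj, rfl⟩ := Finset.mem_image.1 hw
      exact hmaps j hj
    · rw [Finset.card_image_of_injOn (fun j hj k hk h => hinj j hj k hk h)]
      omega
  rw [hsumJ, ← Finset.sum_image (f := fun w => X w) (fun j hj k hk h => hinj j hj k hk h), himg]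
  -- multiply by `l`
  have hl0 : l ≠ 0 := by
    rintro rfl
    rw [zero_pow (by omega)] at hl
    exact zero_ne_one hl
  have hshift : ∑ w ∈ W, X w = ∑ w ∈ W, X (l * w) := by
    symm
    refine Finset.sum_bij (fun w _ => l * w) ?_ ?_ ?_ ?_
    · intro w hw
      rw [hW, Finset.mem_filter] at hw ⊢
      exact ⟨Finset.mem_univ _, by rw [mul_pow, hl, one_mul, hw.2]⟩
    · intro w _ w' _ h
      exact mul_left_cancel₀ hl0 h
    · intro w hw
      rw [hW, Finset.mem_filter] at hw
      refine ⟨l⁻¹ * w, ?_, by field_simp⟩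
      rw [hW, Finset.mem_filter]
      exact ⟨Finset.mem_univ _, by rw [mul_pow, inv_pow, hl, inv_one, one_mul, hw.2]⟩
    · intro w _
      rfl
  simp_rw [map_mul, ← Finset.mul_sum] at hshift
  have h0 : (1 - X l) * ∑ w ∈ W, X w = 0 := by linear_combination hshift
  rcases mul_eq_zero.1 h0 with h1 | h1
  · exact absurd (sub_eq_zero.1 h1).symm hX
  · exact h1

theorem norm_X (X : MulChar K ℂ) {y : K} (hy : y ≠ 0) : ‖X y‖ = 1 := by
  obtain ⟨u, rfl⟩ := hy.isUnit
  exact norm_eq_one_of_mem_rootsOfUnity (X.apply_mem_rootsOfUnity u)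

/-- the transform of the coefficients -/
theorem flat_of_field (hq : 3 ≤ q) (X : MulChar K ℂ) {l : K} (hl : l ^ (q - 1) = 1)
    (hX : X l ≠ 1) (v : AddChar (ZMod (q + 1)) K) (hv : Function.Injective v)
    (hcomm : ∀ x y : K, (x + y) ^ q = x ^ q + y ^ q) (j₀ : ZMod (q + 1)) (hj₀ : v j₀ = -1)
    (t : ZMod (q + 1)) :
    ‖∑ j : ZMod (q + 1), X (1 + v j) * stdAddChar (t * j)‖ ^ 2 = q := by
  have key : (∑ j : ZMod (q + 1), X (1 + v j) * stdAddChar (t * j)) *
      (starRingEnd ℂ) (∑ j : ZMod (q + 1), X (1 + v j) * stdAddChar (t * j)) = q := by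
    rw [map_sum, Finset.sum_mul_sum]
    have h1 : ∀ j : ZMod (q + 1), ∑ k : ZMod (q + 1), X (1 + v j) * stdAddChar (t * j) *
        (starRingEnd ℂ) (X (1 + v k) * stdAddChar (t * k)) =
        ∑ s : ZMod (q + 1), X (1 + v j) * (starRingEnd ℂ) (X (1 + v (j + s))) *
          stdAddChar (-(t * s)) := by
      intro j
      symm
      refine Fintype.sum_bijective (fun s => j + s) (AddGroup.addLeft_bijective j) _ _ ?_
      intro s
      have e : (stdAddChar (-(t * s)) : ℂ) = stdAddChar (t * j) * stdAddChar (-(t * (j + s))) := by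
        rw [← AddChar.map_add_eq_mul]
        congr 1
        ring
      rw [map_mul (starRingEnd ℂ), ← AddChar.map_neg_eq_conj, e]
      ring
    simp_rw [h1]
    rw [Finset.sum_comm]
    simp_rw [← Finset.sum_mul]
    rw [Finset.sum_eq_single (0 : ZMod (q + 1))]
    · simp only [add_zero, mul_zero, neg_zero, AddChar.map_zero_eq_one, mul_one]
      have h2 : ∀ j : ZMod (q + 1), X (1 + v j) * (starRingEnd ℂ) (X (1 + v j)) =
          if j = j₀ then 0 else 1 := by
        intro j
        by_cases hj : j = j₀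
        · rw [if_pos hj, hj, hj₀, add_neg_cancel, MulChar.map_zero, zero_mul]
        · rw [if_neg hj]
          have : (1 : K) + v j ≠ 0 := by
            intro h
            apply hj
            apply hv
            rw [hj₀]
            exact (neg_eq_of_add_eq_zero_right h).symm
          rw [Complex.mul_conj, Complex.normSq_eq_norm_sq, norm_X X this]
          simp
      simp_rw [h2]
      rw [Finset.sum_ite, Finset.sum_const_zero, zero_add, Finset.sum_const, nsmul_eq_mul, mul_one,
        Finset.filter_ne' univ j₀, Finset.card_erase_of_mem (Finset.mem_univ _), Finset.card_univ,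
        ZMod.card]
      simp
    · intro s _ hs
      rw [corr_eq_zero hq X hl hX v hv hcomm j₀ hj₀ s hs, zero_mul]
    · intro h
      exact absurd (Finset.mem_univ _) h
  rw [Complex.mul_conj, Complex.normSq_eq_norm_sq] at key
  exact_mod_cast key

end field

theorem flat {q : ℕ} (hq : IsPrimePow q) (hq3 : 3 ≤ q) (E : Finset (ZMod (q + 1)))
    (hE : E.card = q) : Flat (q + 1) E := by
  classical
  obtain ⟨p, k, hp, hk, hqdef⟩ := hq
  have hpp : p.Prime := hp.nat_prime
  have : Fact p.Prime := ⟨hpp⟩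
  let K := GaloisField p (2 * k)
  have hk2 : 2 * k ≠ 0 := by omega
  have : Finite K := inferInstance
  have : Fintype K := Fintype.ofFinite K
  have hcardK : Fintype.card K = q ^ 2 := by
    rw [← Nat.card_eq_fintype_card, GaloisField.card p (2 * k) hk2, ← hqdef, ← pow_mul, mul_comm]
  -- a generator
  obtain ⟨g, hg⟩ := IsCyclic.exists_generator (α := Kˣ)
  have hord : orderOf g = q ^ 2 - 1 := by
    rw [orderOf_eq_card_of_forall_mem_zpowers hg, Nat.card_eq_fintype_card, Fintype.card_units,
      hcardK]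
  have hfac : q ^ 2 - 1 = (q - 1) * (q + 1) := by
    obtain ⟨r, hr⟩ : ∃ r, q = r + 1 := ⟨q - 1, by omega⟩
    rw [hr]
    simp
    ring_nf
    omega
  have hprim : IsPrimitiveRoot (g : K) (q ^ 2 - 1) := by
    rw [← hord]
    exact (IsPrimitiveRoot.coe_units_iff.2 (IsPrimitiveRoot.orderOf g))
  have hpos : 0 < q ^ 2 - 1 := by
    rw [hfac]
    exact Nat.mul_pos (by omega) (by omega)
  have hu : IsPrimitiveRoot ((g : K) ^ (q - 1)) (q + 1) := hprim.pow hpos hfac
  have hl : IsPrimitiveRoot ((g : K) ^ (q + 1)) (q - 1) :=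
    hprim.pow hpos (by rw [hfac, mul_comm])
  set l : K := (g : K) ^ (q + 1) with hldef
  have hl1 : l ≠ 1 := hl.ne_one (by omega)
  obtain ⟨X, hX⟩ := MulChar.exists_apply_ne_one_of_hasEnoughRootsOfUnity K ℂ hl1
  let v : AddChar (ZMod (q + 1)) K := AddChar.zmodChar (q + 1) hu.pow_eq_one
  have hv : Function.Injective v := by
    intro i j hij
    simp only [v, AddChar.zmodChar_apply] at hij
    exact ZMod.val_injective _ (hu.pow_inj (ZMod.val_lt i) (ZMod.val_lt j) hij)
  have hchar : CharP K p := inferInstance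
  have hcomm : ∀ x y : K, (x + y) ^ q = x ^ q + y ^ q := fun x y => by
    rw [← hqdef]
    exact add_pow_char_pow x y p k
  have hneg : (-1 : K) ^ (q + 1) = 1 := by
    have h1 : ((-1 : K) + 1) ^ q = (-1) ^ q + 1 ^ q := hcomm (-1) 1
    rw [neg_add_cancel, zero_pow (by omega), one_pow] at h1
    rw [pow_succ]
    linear_combination h1
  obtain ⟨i, hi, hi2⟩ := hu.eq_pow_of_pow_eq_one hneg
  have hj₀ : v (i : ZMod (q + 1)) = -1 := by
    simp only [v, AddChar.zmodChar_apply']
    exact hi2
  obtain ⟨b, hb⟩ : ∃ b, E = univ.erase b := by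
    have h1 : Eᶜ.card = 1 := by
      rw [Finset.card_compl, ZMod.card, hE]
      omega
    obtain ⟨b, hb⟩ := Finset.card_eq_one.1 h1
    refine ⟨b, ?_⟩
    ext x
    have : x ∈ Eᶜ ↔ x = b := by rw [hb]; simp
    simp only [Finset.mem_compl] at this
    simp only [Finset.mem_erase, Finset.mem_univ, and_true]
    tauto
  set j₀ : ZMod (q + 1) := (i : ZMod (q + 1)) with hj₀def
  refine ⟨fun x => X (1 + v (x - b + j₀)), ?_, ?_⟩
  · intro x hx
    apply norm_X
    intro h
    rw [hb, Finset.mem_erase] at hx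
    apply hx.1
    have h1 : v (x - b + j₀) = v j₀ := by
      rw [hj₀]
      exact (neg_eq_of_add_eq_zero_right h).symm
    have h2 := hv h1
    have h3 : x - b = 0 := by simpa using h2
    exact sub_eq_zero.1 h3
  · intro t
    rw [hE, transform_eq]
    have h1 : ∑ x ∈ E, X (1 + v (x - b + j₀)) * stdAddChar (t * x) =
        ∑ x : ZMod (q + 1), X (1 + v (x - b + j₀)) * stdAddChar (t * x) := by
      rw [hb, ← Finset.add_sum_erase univ _ (Finset.mem_univ b)]
      simp [hj₀, MulChar.map_zero]
    have h2 : ∑ x : ZMod (q + 1), X (1 + v (x - b + j₀)) * stdAddChar (t * x) =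
        stdAddChar (t * (b - j₀)) * ∑ j : ZMod (q + 1), X (1 + v j) * stdAddChar (t * j) := by
      rw [Finset.mul_sum]
      symm
      refine Fintype.sum_bijective (fun j => j + (b - j₀)) (AddGroup.addRight_bijective _) _ _ ?_
      intro j
      rw [show j + (b - j₀) - b + j₀ = j by ring, mul_add t j, AddChar.map_add_eq_mul]
      ring
    rw [h1, h2, norm_mul, AddChar.norm_apply, one_mul,
      flat_of_field hq3 X hl.pow_eq_one hX v hv hcomm j₀ hj₀ t]

/-- **Main theorem.** -/
theorem result (n : ℕ) [NeZero n] (hn : IsPrimePow (n - 1)) (hn4 : 4 ≤ n) (E : Finset (ZMod n))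
    (hE : E.card = n - 1) : Flat n E ∧ sidon n E = √(E.card) := by
  obtain ⟨q, rfl⟩ : ∃ q, n = q + 1 := ⟨n - 1, by omega⟩
  have h := flat (q := q) hn (by omega) E hE
  exact ⟨h, h.sidon_eq⟩

end Pool.Agent.Results.MP_462016_an.PrimePowersPlusOne
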