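import Mathlib

set_option autoImplicit false

/-!
# Co-singleton subsets of `ℤ_p` are extreme for all primes `p ≡ 1 mod 4`

`sidon n E` is the Sidon constant of `E ⊆ ℤ_n` as in the problem, and `Flat n E` says that `E`
carries unimodular coefficients with a flat transform. Both forms of extremality are proved for
`E` with `p - 1` elements, `p` a prime with `p ≡ 1 mod 4`.

The coefficients are `exp (iθ)` on the squares and `exp (-iθ)` on the non-squares, where
`cos θ = 1 / √(p - 1)`; the quadratic Gauss sum is real for `p ≡ 1 mod 4`.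
-/

namespace Pool.Agent.Results.MP_462016_an.PrimesOneModFour

open Complex Finset ZMod

/-- The transform `∑_{x ∈ E} a_x exp (2 π i x t / n)`. -/
noncomputable def transform (n : ℕ) (E : Finset (ZMod n)) (a : ZMod n → ℂ) (t : ZMod n) : ℂ :=
  ∑ x ∈ E, a x * exp (2 * Real.pi * I * ((x.val * t.val : ℕ) : ℂ) / n)

/-- There are unimodular `c_x` (`x ∈ E`) with `|∑_{x ∈ E} c_x exp (2 π i x t / n)|² = |E|` for
every `t`. -/
def Flat (n : ℕ) (E : Finset (ZMod n)) : Prop :=
  ∃ c : ZMod n → ℂ, (∀ x ∈ E, ‖c x‖ = 1) ∧ ∀ t : ZMod n, ‖transform n E c t‖ ^ 2 = E.card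

/-- The Sidon constant of `E`. -/
noncomputable def sidon (n : ℕ) (E : Finset (ZMod n)) : ℝ :=
  sSup {s : ℝ | ∃ a : ZMod n → ℂ, (∀ t : ZMod n, ‖transform n E a t‖ ≤ 1) ∧ s = ∑ x ∈ E, ‖a x‖}

variable {n : ℕ} [NeZero n]

theorem exp_eq (x t : ZMod n) :
    exp (2 * Real.pi * I * ((x.val * t.val : ℕ) : ℂ) / n) = stdAddChar (t * x) := by
  have h := stdAddChar_coe (N := n) ((x.val * t.val : ℕ) : ℤ)
  have h2 : (((x.val * t.val : ℕ) : ℤ) : ZMod n) = t * x := by
    push_cast
    rw [ZMod.natCast_zmod_val, ZMod.natCast_zmod_val, mul_comm]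
  rw [h2] at h
  rw [h]
  push_cast
  rfl

theorem transform_eq (E : Finset (ZMod n)) (a : ZMod n → ℂ) (t : ZMod n) :
    transform n E a t = ∑ x ∈ E, a x * stdAddChar (t * x) := by
  unfold transform
  exact Finset.sum_congr rfl fun x _ => by rw [exp_eq]

/-- Plancherel. -/
theorem plancherel (E : Finset (ZMod n)) (a : ZMod n → ℂ) :
    ∑ t : ZMod n, ‖transform n E a t‖ ^ 2 = n * ∑ x ∈ E, ‖a x‖ ^ 2 := by
  have key : ∑ t : ZMod n, (transform n E a t) * (starRingEnd ℂ) (transform n E a t) =
      n * ∑ x ∈ E, a x * (starRingEnd ℂ) (a x) := by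
    have h1 : ∀ t : ZMod n, (transform n E a t) * (starRingEnd ℂ) (transform n E a t) =
        ∑ x ∈ E, ∑ y ∈ E, a x * (starRingEnd ℂ) (a y) * stdAddChar (t * (x - y)) := by
      intro t
      rw [transform_eq, map_sum, Finset.sum_mul_sum]
      refine Finset.sum_congr rfl fun x _ => Finset.sum_congr rfl fun y _ => ?_
      rw [map_mul (starRingEnd ℂ), ← AddChar.map_neg_eq_conj, mul_sub, sub_eq_add_neg,
        AddChar.map_add_eq_mul]
      ring
    simp_rw [h1]
    rw [Finset.sum_comm, Finset.mul_sum]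
    refine Finset.sum_congr rfl fun x hx => ?_
    rw [Finset.sum_comm]
    simp_rw [← Finset.mul_sum]
    have h2 : ∀ y ∈ E, a x * (starRingEnd ℂ) (a y) * ∑ t : ZMod n, stdAddChar (t * (x - y)) =
        if y = x then (n : ℂ) * (a x * (starRingEnd ℂ) (a x)) else 0 := by
      intro y _
      rw [AddChar.sum_mulShift (x - y) (isPrimitive_stdAddChar n)]
      by_cases hxy : y = x
      · subst hxy
        simp [ZMod.card, mul_comm]
      · have : x - y ≠ 0 := sub_ne_zero.2 (Ne.symm hxy)
        simp [this, hxy]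
    rw [Finset.sum_congr rfl h2, Finset.sum_ite_eq' E x]
    simp [hx]
  have h3 : ∀ z : ℂ, z * (starRingEnd ℂ) z = ((‖z‖ ^ 2 : ℝ) : ℂ) := by
    intro z
    rw [Complex.mul_conj, Complex.normSq_eq_norm_sq]
  simp_rw [h3] at key
  exact_mod_cast key

/-- A flat set has Sidon constant `√|E|`. -/
theorem Flat.sidon_eq {E : Finset (ZMod n)} (h : Flat n E) : sidon n E = √E.card := by
  have hn : (0 : ℝ) < n := by exact_mod_cast Nat.pos_of_ne_zero (NeZero.ne n)
  rcases E.eq_empty_or_nonempty with rfl | hE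
  · have : {s : ℝ | ∃ a : ZMod n → ℂ, (∀ t : ZMod n, ‖transform n ∅ a t‖ ≤ 1) ∧
        s = ∑ x ∈ (∅ : Finset (ZMod n)), ‖a x‖} = {0} := by
      ext s
      simp only [Finset.sum_empty, Set.mem_ofPred_eq, Set.mem_singleton_iff]
      constructor
      · rintro ⟨a, _, h⟩
        exact h
      · intro h
        exact ⟨0, by simp [transform], h⟩
    unfold sidon
    rw [this]
    simp
  have hN : (0 : ℝ) < E.card := by exact_mod_cast hE.card_pos
  obtain ⟨c, hc, hf⟩ := h
  refine IsGreatest.csSup_eq ⟨?_, ?_⟩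
  · refine ⟨fun x => c x / (√E.card : ℝ), fun t => ?_, ?_⟩
    · have h1 : transform n E (fun x => c x / (√E.card : ℝ)) t =
          transform n E c t / (√E.card : ℝ) := by
        unfold transform
        rw [Finset.sum_div]
        exact Finset.sum_congr rfl fun x _ => by ring
      have h2 : ‖transform n E c t‖ = √E.card := by
        rw [← hf t, Real.sqrt_sq (norm_nonneg _)]
      rw [h1, norm_div, h2, Complex.norm_real, Real.norm_of_nonneg (Real.sqrt_nonneg _),
        div_self (Real.sqrt_pos.2 hN).ne']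
    · have h1 : ∀ x ∈ E, ‖c x / ((√E.card : ℝ) : ℂ)‖ = 1 / √E.card := by
        intro x hx
        rw [norm_div, hc x hx, Complex.norm_real, Real.norm_of_nonneg (Real.sqrt_nonneg _)]
      rw [Finset.sum_congr rfl h1, Finset.sum_const, nsmul_eq_mul, mul_one_div]
      exact (Real.div_sqrt).symm
  · rintro s ⟨a, ha, rfl⟩
    have h1 : (∑ x ∈ E, ‖a x‖) ^ 2 ≤ E.card * ∑ x ∈ E, ‖a x‖ ^ 2 :=
      sq_sum_le_card_mul_sum_sq
    have h2 : ∑ t : ZMod n, ‖transform n E a t‖ ^ 2 ≤ n := by
      calc ∑ t : ZMod n, ‖transform n E a t‖ ^ 2 ≤ ∑ _t : ZMod n, (1 : ℝ) :=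
            Finset.sum_le_sum fun t _ => by
              have := ha t
              have h0 := norm_nonneg (transform n E a t)
              nlinarith
        _ = n := by simp [ZMod.card]
    rw [plancherel] at h2
    have h3 : ∑ x ∈ E, ‖a x‖ ^ 2 ≤ 1 := by
      by_contra hcon
      push Not at hcon
      nlinarith
    refine Real.le_sqrt_of_sq_le (h1.trans ?_)
    nlinarith

variable {p : ℕ} [Fact p.Prime]

/-- the quadratic character with complex values -/
noncomputable def χ (p : ℕ) [Fact p.Prime] : MulChar (ZMod p) ℂ :=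
  (quadraticChar (ZMod p)).ringHomComp (Int.castRingHom ℂ)

theorem χ_sq {y : ZMod p} (hy : y ≠ 0) : χ p y = 1 ∨ χ p y = -1 := by
  rcases quadraticChar_dichotomy hy with h | h
  · left; simp [χ, MulChar.ringHomComp_apply, h]
  · right; simp [χ, MulChar.ringHomComp_apply, h]

theorem gauss_sq (h : p % 4 = 1) : (gaussSum (χ p) (stdAddChar (N := p))) ^ 2 = p := by
  have hp2 : ringChar (ZMod p) ≠ 2 := by
    rw [ZMod.ringChar_zmod_n]
    omega
  have hne : χ p ≠ 1 := by
    intro h1
    apply quadraticChar_ne_one hp2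
    ext a
    have := congrArg (fun f : MulChar (ZMod p) ℂ => f a) h1
    simp only [χ, MulChar.ringHomComp_apply, MulChar.one_apply_coe] at this
    rw [MulChar.one_apply_coe]
    rw [eq_intCast] at this
    exact_mod_cast this
  have hq : (χ p).IsQuadratic := (quadraticChar_isQuadratic (ZMod p)).comp _
  rw [gaussSum_sq hne hq (isPrimitive_stdAddChar p), ZMod.card]
  have hm : χ p (-1) = 1 := by
    have h1 : IsSquare (-1 : ZMod p) := ZMod.exists_sq_eq_neg_one_iff.2 (by omega)
    have h2 : quadraticChar (ZMod p) (-1) = 1 :=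
      (quadraticChar_one_iff_isSquare (neg_ne_zero.2 one_ne_zero)).2 h1
    simp [χ, MulChar.ringHomComp_apply, h2]
  rw [hm, one_mul]

/-- the Gauss sum is real -/
theorem exists_gauss (h : p % 4 = 1) :
    ∃ u : ℝ, gaussSum (χ p) (stdAddChar (N := p)) = u ∧ u ^ 2 = p := by
  set g := gaussSum (χ p) (stdAddChar (N := p)) with hg
  have h2 : g ^ 2 = p := gauss_sq h
  have hpos : (0 : ℝ) < p := by exact_mod_cast (Fact.out : p.Prime).pos
  have hre := congrArg Complex.re h2
  have him := congrArg Complex.im h2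
  rw [pow_two, Complex.mul_re] at hre
  rw [pow_two, Complex.mul_im] at him
  simp only [Complex.natCast_re, Complex.natCast_im] at hre him
  have him0 : g.im = 0 := by
    rcases mul_eq_zero.1 (show g.re * g.im = 0 by linarith) with h0 | h0
    · rw [h0] at hre
      nlinarith [sq_nonneg g.im]
    · exact h0
  refine ⟨g.re, ?_, ?_⟩
  · apply Complex.ext <;> simp [him0]
  · rw [him0] at hre
    nlinarith

theorem sum_ne_zero_std (t : ZMod p) :
    ∑ y ∈ univ.erase (0 : ZMod p), stdAddChar (t * y) = if t = 0 then (p : ℂ) - 1 else -1 := by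
  have h1 : ∑ y : ZMod p, stdAddChar (t * y) = if t = 0 then (p : ℂ) else 0 := by
    have := AddChar.sum_mulShift t (isPrimitive_stdAddChar p)
    simp only [ZMod.card, Nat.cast_ite, Nat.cast_zero] at this
    rw [← this]
    exact Finset.sum_congr rfl fun y _ => by rw [mul_comm]
  have h2 := Finset.add_sum_erase univ (fun y : ZMod p => (stdAddChar (t * y) : ℂ))
    (Finset.mem_univ (0 : ZMod p))
  rw [h1] at h2
  simp only [mul_zero, AddChar.map_zero_eq_one] at h2
  split_ifs at h2 ⊢ <;> linear_combination h2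

theorem sum_χ_std (t : ZMod p) (h : p % 4 = 1) :
    ∑ y ∈ univ.erase (0 : ZMod p), χ p y * stdAddChar (t * y) =
      χ p t * gaussSum (χ p) (stdAddChar (N := p)) := by
  have h0 : ∑ y ∈ univ.erase (0 : ZMod p), χ p y * stdAddChar (t * y) =
      ∑ y : ZMod p, χ p y * stdAddChar (t * y) := by
    have h2 := Finset.add_sum_erase univ (fun y : ZMod p => χ p y * (stdAddChar (t * y) : ℂ))
      (Finset.mem_univ (0 : ZMod p))
    rw [← h2]
    simp [MulChar.map_zero]
  rw [h0]
  by_cases ht : t = 0
  · subst ht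
    have hp2 : ringChar (ZMod p) ≠ 2 := by
      rw [ZMod.ringChar_zmod_n]
      omega
    have hs : ∑ a : ZMod p, quadraticChar (ZMod p) a = 0 := quadraticChar_sum_zero hp2
    have : ∑ y : ZMod p, χ p y = 0 := by
      have := congrArg (Int.cast : ℤ → ℂ) hs
      push_cast at this
      simpa [χ, MulChar.ringHomComp_apply] using this
    simp [this, MulChar.map_zero]
  · have h1 := gaussSum_mulShift (χ p) (stdAddChar (N := p)) (Units.mk0 t ht)
    simp only [Units.val_mk0] at h1
    have h2 : gaussSum (χ p) (AddChar.mulShift (stdAddChar (N := p)) (Units.mk0 t ht : (ZMod p)ˣ)) =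
        ∑ y : ZMod p, χ p y * stdAddChar (t * y) := by
      unfold gaussSum
      exact Finset.sum_congr rfl fun y _ => by rw [AddChar.mulShift_apply, Units.val_mk0]
    rw [Units.val_mk0] at h2
    rw [← h2, ← h1]
    rcases χ_sq ht with h3 | h3 <;> rw [h3] <;> ring

/-- **Main construction.** -/
theorem flat (h : p % 4 = 1) (E : Finset (ZMod p)) (hE : E.card = p - 1) : Flat p E := by
  have hp5 : 5 ≤ p := by
    have := (Fact.out : p.Prime).two_le
    have h1 : p ≠ 2 := by omega
    have h2 : p ≠ 3 := by omega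
    have h3 : p ≠ 4 := by omega
    omega
  have hpR : (5 : ℝ) ≤ p := by exact_mod_cast hp5
  obtain ⟨b, hb⟩ : ∃ b, E = univ.erase b := by
    have h1 : Eᶜ.card = 1 := by
      rw [Finset.card_compl, ZMod.card, hE]
      omega
    obtain ⟨b, hb⟩ := Finset.card_eq_one.1 h1
    refine ⟨b, ?_⟩
    ext x
    have : x ∈ Eᶜ ↔ x = b := by rw [hb]; simp
    simp only [Finset.mem_compl] at this
    simp only [Finset.mem_erase, Finset.mem_univ, and_true]
    tauto
  set C : ℝ := √(1 / (p - 1)) with hC
  set S : ℝ := √(1 - 1 / (p - 1)) with hS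
  have hinv : 1 / ((p : ℝ) - 1) ≤ 1 := by
    rw [div_le_one (by linarith)]
    linarith
  have hC2 : C ^ 2 = 1 / (p - 1) := Real.sq_sqrt (by
    have : (0 : ℝ) < p - 1 := by linarith
    positivity)
  have hS2 : S ^ 2 = 1 - 1 / (p - 1) := Real.sq_sqrt (by linarith)
  have hcard : ((E.card : ℕ) : ℝ) = p - 1 := by
    rw [hE, Nat.cast_sub (by omega)]
    simp
  obtain ⟨u, hu, hu2⟩ := exists_gauss (p := p) h
  refine ⟨fun x => C + I * S * χ p (x - b), ?_, ?_⟩
  · intro x hx
    have hx' : x - b ≠ 0 := by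
      rw [hb, Finset.mem_erase] at hx
      exact sub_ne_zero.2 hx.1
    have hnorm : ∀ e : ℝ, e ^ 2 = 1 → ‖(C : ℂ) + I * S * (e : ℂ)‖ = 1 := by
      intro e he
      have h1 : ‖(C : ℂ) + I * S * (e : ℂ)‖ ^ 2 = 1 := by
        rw [← Complex.normSq_eq_norm_sq, Complex.normSq_apply]
        simp only [Complex.add_re, Complex.add_im, Complex.mul_re, Complex.mul_im,
          Complex.ofReal_re, Complex.ofReal_im, Complex.I_re, Complex.I_im]
        nlinarith [he, hC2, hS2]
      have h0 := norm_nonneg ((C : ℂ) + I * S * (e : ℂ))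
      nlinarith
    rcases χ_sq hx' with h3 | h3
    · have := hnorm 1 (by norm_num)
      simpa [h3] using this
    · have := hnorm (-1) (by norm_num)
      simpa [h3] using this
  · intro t
    rw [hcard, transform_eq]
    have hshift : ∑ x ∈ E, ((C : ℂ) + I * S * χ p (x - b)) * stdAddChar (t * x) =
        stdAddChar (t * b) * ((C : ℂ) * (∑ y ∈ univ.erase (0 : ZMod p), stdAddChar (t * y)) +
          I * S * (∑ y ∈ univ.erase (0 : ZMod p), χ p y * stdAddChar (t * y))) := by
      rw [Finset.mul_sum, Finset.mul_sum, ← Finset.sum_add_distrib, Finset.mul_sum, hb]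
      symm
      refine Finset.sum_bij (fun y _ => y + b) ?_ ?_ ?_ ?_
      · intro y hy
        rw [Finset.mem_erase] at hy ⊢
        exact ⟨fun hc => hy.1 (by simpa using hc), Finset.mem_univ _⟩
      · intro y _ y' _ hh
        simpa using hh
      · intro x hx
        rw [Finset.mem_erase] at hx
        exact ⟨x - b, by rw [Finset.mem_erase]; exact ⟨sub_ne_zero.2 hx.1, Finset.mem_univ _⟩,
          by simp⟩
      · intro y _
        rw [add_sub_cancel_right, mul_add t y b, AddChar.map_add_eq_mul]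
        ring
    rw [hshift, sum_ne_zero_std, sum_χ_std t h, hu, norm_mul, AddChar.norm_apply, one_mul]
    by_cases ht : t = 0
    · subst ht
      rw [if_pos rfl, MulChar.map_zero]
      have h1 : ((C : ℂ) * ((p : ℂ) - 1) + I * S * (0 * (u : ℂ))) = ((C * (p - 1) : ℝ) : ℂ) := by
        push_cast
        ring
      rw [h1, Complex.norm_real, Real.norm_eq_abs, sq_abs, mul_pow, hC2]
      have : (p : ℝ) - 1 ≠ 0 := by linarith
      field_simp
    · rw [if_neg ht]
      have hval : ∀ e : ℝ, e ^ 2 = 1 →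
          ‖(C : ℂ) * (-1) + I * S * ((e : ℂ) * (u : ℂ))‖ ^ 2 = (p : ℝ) - 1 := by
        intro e he
        rw [← Complex.normSq_eq_norm_sq, Complex.normSq_apply]
        simp only [Complex.add_re, Complex.add_im, Complex.mul_re, Complex.mul_im,
          Complex.ofReal_re, Complex.ofReal_im, Complex.I_re, Complex.I_im, Complex.neg_re,
          Complex.neg_im, Complex.one_re, Complex.one_im]
        have e1 : C ^ 2 + S ^ 2 * (e ^ 2 * u ^ 2) = (p : ℝ) - 1 := by
          rw [he, hu2, hC2, hS2]
          have : (p : ℝ) - 1 ≠ 0 := by linarith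
          field_simp
          ring
        rw [← e1]
        ring
      rcases χ_sq ht with h3 | h3
      · have := hval 1 (by norm_num)
        rw [h3]
        simpa using this
      · have := hval (-1) (by norm_num)
        rw [h3]
        simpa using this

/-- **Main theorem.** -/
theorem result (p : ℕ) [Fact p.Prime] (h : p % 4 = 1) (E : Finset (ZMod p))
    (hE : E.card = p - 1) : Flat p E ∧ sidon p E = √(E.card) :=
  ⟨flat h E hE, (flat h E hE).sidon_eq⟩

end Pool.Agent.Results.MP_462016_an.PrimesOneModFour
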